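import Pool.Agent.H476R2.Pal.BV2
import Pool.Agent.H187R2.PalT10

/-!
# Palindromes and primes with arbitrary shifts

Uniformly in the integer `a`, at most `(20/3 + ε) (5 * 10^L / (L log 10))` of the decimal palindromes
`n` with `2 L + 1` digits are such that `|n + a|` is a prime.
-/

set_option autoImplicit false

namespace Pool.Agent.H281L

open Finset Filter Topology Pool.Agent.Helper112 Pool.Agent.H476R2.Pal Pool.Agent.H329R2.PalT13
open Pool.Agent.H329R2

/-- the value `|n + a|` at the palindrome with leading digit `l` -/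
def uv (a : ℤ) (l L : ℕ) (m : Fin L → Fin 10) : ℕ := ((pvl l L m : ℤ) + a).natAbs

/-- the residue class of `pv` for which `q` divides `uv` -/
def cls (a : ℤ) (l L q : ℕ) : ℕ :=
  ((-(((l - 1) * (10 ^ (2 * L) + 1) : ℕ) : ℤ) - a) % (q : ℤ)).toNat

lemma dvd_uv_iff (a : ℤ) (l L q : ℕ) (hl : 1 ≤ l) (hq : 1 ≤ q) (m : Fin L → Fin 10) :
    q ∣ uv a l L m ↔ pv L m ≡ cls a l L q [MOD q] := by
  have hq0 : (q : ℤ) ≠ 0 := by exact_mod_cast (by omega : q ≠ 0)
  have h1 : ((cls a l L q : ℕ) : ℤ) = (-(((l - 1) * (10 ^ (2 * L) + 1) : ℕ) : ℤ) - a) % (q : ℤ) := by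
    unfold cls
    exact Int.toNat_of_nonneg (Int.emod_nonneg _ hq0)
  unfold uv
  rw [← Int.natCast_dvd_natCast, Int.dvd_natAbs, ← Int.natCast_modEq_iff, pvl_eq l L hl m, h1,
    Int.modEq_iff_dvd, ← dvd_neg]
  have h2 := Int.emod_add_mul_ediv (-(((l - 1) * (10 ^ (2 * L) + 1) : ℕ) : ℤ) - a) (q : ℤ)
  set t : ℤ := (((l - 1) * (10 ^ (2 * L) + 1) : ℕ) : ℤ) with ht
  set r : ℤ := (-t - a) % (q : ℤ) with hr
  set k : ℤ := (-t - a) / (q : ℤ) with hk
  have h3 : r - (pv L m : ℤ) = -(((pv L m + (l - 1) * (10 ^ (2 * L) + 1) : ℕ) : ℤ) + a) -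
      (q : ℤ) * k := by
    rw [Nat.cast_add, ← ht]
    linarith
  rw [h3]
  constructor
  · intro h
    exact dvd_sub h (dvd_mul_right _ _)
  · intro h
    have h4 := dvd_add h (dvd_mul_right (q : ℤ) k)
    rwa [sub_add_cancel] at h4

lemma rem_uv (a : ℤ) (l L q : ℕ) (hl : 1 ≤ l) (hq : 1 ≤ q) :
    rem (univ : Finset (Fin L → Fin 10)) (uv a l L) (10 ^ L) q =
      cnt L q (cls a l L q) - 10 ^ L / q := by
  unfold rem cnt
  congr 2
  congr 1
  ext m
  simp only [mem_filter, mem_univ, true_and]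
  exact dvd_uv_iff a l L q hl hq m

lemma pvl_inj (l L : ℕ) (hl : 1 ≤ l) (hL : 1 ≤ L) : Function.Injective (pvl l L) := by
  intro m m' h
  rw [pvl_eq l L hl, pvl_eq l L hl] at h
  exact Pool.Agent.H187R2.PalT10.pv_inj L hL (by omega)

/-- few values are small -/
lemma small (a : ℤ) (l L z : ℕ) (hl : 1 ≤ l) (hL : 1 ≤ L) :
    ((univ : Finset (Fin L → Fin 10)).filter (fun m => uv a l L m < z)).card ≤ 2 * z := by
  have h1 : ((univ : Finset (Fin L → Fin 10)).filter (fun m => uv a l L m < z)).card ≤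
      (Finset.Ioo (-(z : ℤ)) (z : ℤ)).card := by
    refine card_le_card_of_injOn (fun m => (pvl l L m : ℤ) + a) ?_ ?_
    · intro m hm
      rw [mem_coe, mem_filter] at hm
      rw [mem_coe, mem_Ioo]
      have h := hm.2
      unfold uv at h
      show -(z : ℤ) < (pvl l L m : ℤ) + a ∧ (pvl l L m : ℤ) + a < z
      omega
    · intro m _ m' _ h
      have h2 : (pvl l L m : ℤ) = pvl l L m' := by
        have : (pvl l L m : ℤ) + a = (pvl l L m' : ℤ) + a := h
        linarith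
      exact pvl_inj l L hl hL (by exact_mod_cast h2)
  refine h1.trans ?_
  rw [Int.card_Ioo]
  omega

/-- primes in one family -/
lemma fam (a : ℤ) (l L : ℕ) (hl : 1 ≤ l) (hL : 1 ≤ L) (D : ℝ) (hD : 4 < D) :
    ((((univ : Finset (Fin L → Fin 10)).filter (fun m => (uv a l L m).Prime)).card : ℕ) : ℝ) ≤
      10 ^ L / (2 / 5 * (Real.log D / 2 - Real.log 2)) +
        (∑ q ∈ (Icc 1 ⌊D⌋₊).filter (fun q => q.Coprime 10),
          (q.divisors.card : ℝ) ^ 2 * |cnt L q (cls a l L q) - 10 ^ L / q|) +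
        2 * (Real.sqrt D + 1) := by
  have hs2 : 2 ≤ Real.sqrt D := by
    rw [show (2 : ℝ) = Real.sqrt 4 by rw [show (4 : ℝ) = 2 ^ 2 by norm_num]; simp]
    exact Real.sqrt_le_sqrt hD.le
  set z := ⌈Real.sqrt D⌉₊ with hz
  have hzr : Real.sqrt D ≤ (z : ℝ) := Nat.le_ceil _
  have hzr2 : (z : ℝ) < Real.sqrt D + 1 := Nat.ceil_lt_add_one (by linarith)
  have h1 : ((((univ : Finset (Fin L → Fin 10)).filter (fun m => (uv a l L m).Prime)).card : ℕ) : ℝ) ≤
      sift univ (uv a l L) 1 z + 2 * z := by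
    unfold sift
    have hsub : ((univ : Finset (Fin L → Fin 10)).filter (fun m => (uv a l L m).Prime)) ⊆
        (univ : Finset (Fin L → Fin 10)).filter
          (fun m => 1 ∣ uv a l L m ∧ (uv a l L m).Coprime (PZ z)) ∪
        (univ : Finset (Fin L → Fin 10)).filter (fun m => uv a l L m < z) := by
      intro m hm
      rw [mem_filter] at hm
      rw [mem_union, mem_filter, mem_filter]
      by_cases hlt : uv a l L m < z
      · exact Or.inr ⟨hm.1, hlt⟩
      · left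
        refine ⟨hm.1, one_dvd _, ?_⟩
        rw [Nat.Prime.coprime_iff_not_dvd hm.2]
        intro hdvd
        have h2 := PalS6.lt_of_dvd_PZ (dvd_refl (PZ z)) hm.2 hdvd
        omega
    have h2 := (card_le_card hsub).trans (card_union_le _ _)
    have h3 := small a l L z hl hL
    have h4 : (((univ : Finset (Fin L → Fin 10)).filter (fun m => (uv a l L m).Prime)).card) ≤
        ((univ : Finset (Fin L → Fin 10)).filter
          (fun m => 1 ∣ uv a l L m ∧ (uv a l L m).Coprime (PZ z))).card + 2 * z := by omega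
    exact_mod_cast h4
  have h2 := Pool.Agent.H605R2.PalS1.selberg (univ : Finset (Fin L → Fin 10)) (uv a l L) (10 ^ L)
    (by positivity) z 1 (Nat.coprime_one_left _) one_pos (Real.sqrt D) (by linarith)
  have h3 := Pool.Agent.H965R2.PalS3.G_log z (Real.sqrt D) (Real.sqrt D / 2) (by linarith)
    (by linarith) (by linarith)
  have h4 : Real.log (Real.sqrt D / 2) = Real.log D / 2 - Real.log 2 := by
    rw [Real.log_div (by linarith) (by norm_num), Real.log_sqrt (by linarith)]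
  rw [h4] at h3
  have hlog2 : 0 < Real.log 2 := Real.log_pos (by norm_num)
  have hpos : 0 < Real.log D / 2 - Real.log 2 := by
    have h5 : Real.log 4 < Real.log D := Real.log_lt_log (by norm_num) hD
    rw [PalS6.log4] at h5
    linarith
  have h5 : 10 ^ L / ((1 : ℕ) : ℝ) / GZ (Real.sqrt D) z ≤
      10 ^ L / (2 / 5 * (Real.log D / 2 - Real.log 2)) := by
    rw [Nat.cast_one, div_one]
    exact div_le_div_of_nonneg_left (by positivity) (by positivity) h3
  have h6 : ∑ l' ∈ (PZ z).divisors.filter (fun l' : ℕ => (l' : ℝ) ≤ Real.sqrt D ^ 2),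
      (l'.divisors.card : ℝ) ^ 2 * |rem (univ : Finset (Fin L → Fin 10)) (uv a l L) (10 ^ L) (1 * l')| ≤
      ∑ q ∈ (Icc 1 ⌊D⌋₊).filter (fun q => q.Coprime 10),
        (q.divisors.card : ℝ) ^ 2 * |cnt L q (cls a l L q) - 10 ^ L / q| := by
    have h7 : ∀ l' ∈ (PZ z).divisors.filter (fun l' : ℕ => (l' : ℝ) ≤ Real.sqrt D ^ 2),
        l' ∈ (Icc 1 ⌊D⌋₊).filter (fun q => q.Coprime 10) := by
      intro l' hl'
      rw [mem_filter, Nat.mem_divisors] at hl'
      have hl0 : l' ≠ 0 := fun h => hl'.1.2 (by rw [h] at hl'; exact zero_dvd_iff.mp hl'.1.1)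
      rw [mem_filter, mem_Icc]
      refine ⟨⟨Nat.one_le_iff_ne_zero.mpr hl0, ?_⟩, ?_⟩
      · apply Nat.le_floor
        have := hl'.2
        rwa [Real.sq_sqrt (by linarith)] at this
      · exact Nat.Coprime.coprime_dvd_left hl'.1.1 (PalS6.PZ_coprime_ten z)
    calc _ = ∑ l' ∈ (PZ z).divisors.filter (fun l' : ℕ => (l' : ℝ) ≤ Real.sqrt D ^ 2),
        (l'.divisors.card : ℝ) ^ 2 * |cnt L l' (cls a l L l') - 10 ^ L / l'| := by
          apply sum_congr rfl
          intro l' hl'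
          have := h7 l' hl'
          rw [mem_filter, mem_Icc] at this
          rw [one_mul, rem_uv a l L l' hl this.1.1]
      _ ≤ _ := by
          apply sum_le_sum_of_subset_of_nonneg h7
          intro q _ _
          positivity
  linarith

/-- the leading digits for which `|n + a|` can be coprime to ten -/
def digs (a : ℤ) : Finset ℕ :=
  (Icc 1 9).filter fun l => ((l : ℤ) + a) % 2 ≠ 0 ∧ ((l : ℤ) + a) % 5 ≠ 0

lemma digs_card (a : ℤ) : (digs a).card ≤ 4 := by
  have h1 : digs a = (Icc 1 9).filter fun l : ℕ =>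
      ((l : ℤ) + a % 10) % 2 ≠ 0 ∧ ((l : ℤ) + a % 10) % 5 ≠ 0 := by
    unfold digs
    refine filter_congr fun l _ => ?_
    have e1 : ((l : ℤ) + a % 10) % 2 = ((l : ℤ) + a) % 2 := by omega
    have e2 : ((l : ℤ) + a % 10) % 5 = ((l : ℤ) + a) % 5 := by omega
    rw [e1, e2]
  rw [h1]
  have h2 : a % 10 = 0 ∨ a % 10 = 1 ∨ a % 10 = 2 ∨ a % 10 = 3 ∨ a % 10 = 4 ∨ a % 10 = 5 ∨
      a % 10 = 6 ∨ a % 10 = 7 ∨ a % 10 = 8 ∨ a % 10 = 9 := by omega
  rcases h2 with h | h | h | h | h | h | h | h | h | h <;> rw [h] <;> decide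

/-- for the other leading digits there are few primes -/
lemma fam_bad (a : ℤ) (l L : ℕ) (hl : 1 ≤ l) (hL : 1 ≤ L)
    (h : ((l : ℤ) + a) % 2 = 0 ∨ ((l : ℤ) + a) % 5 = 0) :
    ((univ : Finset (Fin L → Fin 10)).filter (fun m => (uv a l L m).Prime)).card ≤ 12 := by
  refine le_trans (card_le_card ?_) (small a l L 6 hl hL)
  intro m hm
  rw [mem_filter] at hm ⊢
  refine ⟨hm.1, ?_⟩
  have hmod := pvl_mod l L hL m
  have hu : uv a l L m = ((pvl l L m : ℤ) + a).natAbs := rfl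
  rcases h with h | h
  · have h2 : 2 ∣ uv a l L m := by omega
    have := (Nat.prime_dvd_prime_iff_eq Nat.prime_two hm.2).1 h2
    omega
  · have h2 : 5 ∣ uv a l L m := by omega
    have := (Nat.prime_dvd_prime_iff_eq Nat.prime_five hm.2).1 h2
    omega

/-- all palindromes with `2 L + 1` digits -/
theorem total (a : ℤ) (L : ℕ) (hL : 1 ≤ L) (B : ℝ) (hB : 0 ≤ B)
    (hfam : ∀ l : ℕ, 1 ≤ l →
      ((((univ : Finset (Fin L → Fin 10)).filter (fun m => (uv a l L m).Prime)).card : ℕ) : ℝ) ≤ B) :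
    (((palin L).filter (fun n : ℕ => ((n : ℤ) + a).natAbs.Prime)).card : ℝ) ≤ 4 * B + 108 := by
  have hsub : (palin L).filter (fun n : ℕ => ((n : ℤ) + a).natAbs.Prime) ⊆ (Icc 1 9).biUnion
      (fun l => ((univ : Finset (Fin L → Fin 10)).filter (fun m => (uv a l L m).Prime)).image
        (fun m => pvl l L m)) := by
    intro n hn
    have hpe : palin L =
        ((Icc 1 9) ×ˢ (univ : Finset (Fin L → Fin 10))).image (fun x => pvl x.1 L x.2) :=
      Pool.Agent.H861R2.Pal.palin_eq L hL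
    rw [mem_filter, hpe, mem_image] at hn
    obtain ⟨⟨⟨l, m⟩, hx, rfl⟩, hp⟩ := hn
    rw [mem_product] at hx
    rw [mem_biUnion]
    refine ⟨l, hx.1, ?_⟩
    rw [mem_image]
    exact ⟨m, by rw [mem_filter]; exact ⟨mem_univ _, hp⟩, rfl⟩
  have h1 : ((palin L).filter (fun n : ℕ => ((n : ℤ) + a).natAbs.Prime)).card ≤ ∑ l ∈ Icc 1 9,
      ((univ : Finset (Fin L → Fin 10)).filter (fun m => (uv a l L m).Prime)).card := by
    refine le_trans (card_le_card hsub) (le_trans card_biUnion_le ?_)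
    exact sum_le_sum (fun l _ => card_image_le)
  have h2 : ∀ l ∈ Icc 1 9,
      ((((univ : Finset (Fin L → Fin 10)).filter (fun m => (uv a l L m).Prime)).card : ℕ) : ℝ) ≤
      (if l ∈ digs a then B else 0) + 12 := by
    intro l hl
    rw [mem_Icc] at hl
    by_cases hd : l ∈ digs a
    · rw [if_pos hd]
      have := hfam l hl.1
      linarith
    · rw [if_neg hd, zero_add]
      have h3 : ((l : ℤ) + a) % 2 = 0 ∨ ((l : ℤ) + a) % 5 = 0 := by
        unfold digs at hd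
        rw [mem_filter, mem_Icc] at hd
        by_contra hcon
        rw [not_or] at hcon
        exact hd ⟨hl, hcon⟩
      exact_mod_cast fam_bad a l L hl.1 hL h3
  calc (((palin L).filter (fun n : ℕ => ((n : ℤ) + a).natAbs.Prime)).card : ℝ)
      ≤ ((∑ l ∈ Icc 1 9,
        ((univ : Finset (Fin L → Fin 10)).filter (fun m => (uv a l L m).Prime)).card : ℕ) : ℝ) := by
        exact_mod_cast h1
    _ = ∑ l ∈ Icc 1 9,
        ((((univ : Finset (Fin L → Fin 10)).filter (fun m => (uv a l L m).Prime)).card : ℕ) : ℝ) := by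
        push_cast; rfl
    _ ≤ ∑ l ∈ Icc 1 9, ((if l ∈ digs a then B else 0) + 12) := sum_le_sum h2
    _ = (digs a).card * B + 108 := by
        rw [sum_add_distrib, ← sum_filter, sum_const, sum_const, nsmul_eq_mul, nsmul_eq_mul]
        have h4 : (Icc 1 9).filter (fun l => l ∈ digs a) = digs a := by
          ext l
          rw [mem_filter]
          unfold digs
          rw [mem_filter]
          tauto
        rw [h4, Nat.card_Icc]
        norm_num
    _ ≤ 4 * B + 108 := by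
        have h5 : ((digs a).card : ℝ) ≤ 4 := by exact_mod_cast digs_card a
        nlinarith

/-- **The main theorem.** -/
theorem shifted (ε : ℝ) (hε : 0 < ε) : ∀ᶠ L : ℕ in atTop, ∀ a : ℤ,
    (((palin L).filter (fun n : ℕ => ((n : ℤ) + a).natAbs.Prime)).card : ℝ) ≤
      (20 / 3 + ε) * (5 * 10 ^ L / (L * Real.log 10)) := by
  have hl10 : 0 < Real.log 10 := Real.log_pos (by norm_num)
  -- the limit
  have hinv : Tendsto (fun L : ℕ => Real.log 2 / (L : ℝ)) atTop (𝓝 0) :=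
    tendsto_const_nhds.div_atTop tendsto_natCast_atTop_atTop
  have hinv4 : Tendsto (fun L : ℕ => 5 / (L : ℝ)) atTop (𝓝 0) :=
    tendsto_const_nhds.div_atTop tendsto_natCast_atTop_atTop
  have hlim : Tendsto (fun L : ℕ => 4 / (2 / 5 * ((3 / 5 : ℝ) * Real.log 10 / 2 - Real.log 2 / (L : ℝ)))
      + 5 / (L : ℝ)) atTop (𝓝 (4 / (2 / 5 * ((3 / 5 : ℝ) * Real.log 10 / 2 - 0)) + 0)) := by
    apply Tendsto.add _ hinv4
    apply Tendsto.div tendsto_const_nhds
    · exact (hinv.const_sub _).const_mul _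
    · rw [sub_zero]
      positivity
  have hlt : 4 / (2 / 5 * ((3 / 5 : ℝ) * Real.log 10 / 2 - 0)) + 0 < (20 / 3 + ε) * 5 / Real.log 10 := by
    rw [add_zero, sub_zero, div_lt_div_iff₀ (by positivity) hl10]
    have h2 : 4 < (20 / 3 + ε) * 5 * (2 / 5 * ((3 / 5 : ℝ) / 2)) := by nlinarith
    calc 4 * Real.log 10 < (20 / 3 + ε) * 5 * (2 / 5 * ((3 / 5 : ℝ) / 2)) * Real.log 10 :=
          mul_lt_mul_of_pos_right h2 hl10
      _ = _ := by ring
  have hev := hlim.eventually_lt_const hlt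
  have hDt : Tendsto (fun L : ℕ => (10 : ℝ) ^ ((3 / 5 : ℝ) * L)) atTop atTop := by
    have h1 : Tendsto (fun L : ℕ => (3 / 5 : ℝ) * (L : ℝ)) atTop atTop :=
      tendsto_natCast_atTop_atTop.const_mul_atTop (by norm_num)
    have h2 : Tendsto (fun x : ℝ => (10 : ℝ) ^ x) atTop atTop :=
      tendsto_rpow_atTop_of_base_gt_one 10 (by norm_num)
    exact h2.comp h1
  have hpos : ∀ᶠ L : ℕ in atTop, 1 < (3 / 5 : ℝ) * Real.log 10 / 2 * (L : ℝ) := by
    have h1 : Tendsto (fun L : ℕ => (3 / 5 : ℝ) * Real.log 10 / 2 * (L : ℝ)) atTop atTop := by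
      apply tendsto_natCast_atTop_atTop.const_mul_atTop
      positivity
    exact h1.eventually_gt_atTop 1
  have hsq : (1 : ℝ) < Real.sqrt 10 := by
    rw [Real.lt_sqrt (by norm_num)]; norm_num
  have hexp : ∀ᶠ L : ℕ in atTop, (L : ℝ) ^ 2 / Real.sqrt 10 ^ L < 1 / 132 :=
    (tendsto_pow_const_div_const_pow_of_one_lt 2 hsq).eventually_lt_const (by norm_num)
  filter_upwards [hev, hDt.eventually_gt_atTop 4, hpos, BV2 2, eventually_ge_atTop 1, hexp] with
    L hL1 hL2 hL3 hL4 hL5 hL6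
  intro a
  have hLp : (0 : ℝ) < L := by exact_mod_cast hL5
  set D : ℝ := (10 : ℝ) ^ ((3 / 5 : ℝ) * L) with hD
  have hlogD : Real.log D = (3 / 5 : ℝ) * L * Real.log 10 := by
    rw [hD, Real.log_rpow (by norm_num)]
  have hl2 : Real.log 2 < 1 := by
    have := Real.log_two_lt_d9
    linarith
  have hDle : D ≤ 10 ^ L := by
    rw [hD, ← Real.rpow_natCast]
    apply Real.rpow_le_rpow_of_exponent_le (by norm_num)
    nlinarith
  have hs10 : Real.sqrt 10 ^ L * Real.sqrt 10 ^ L = 10 ^ L := by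
    rw [← mul_pow, Real.mul_self_sqrt (by norm_num)]
  have hsD : Real.sqrt D ≤ Real.sqrt 10 ^ L := by
    rw [← Real.sqrt_mul_self (show (0 : ℝ) ≤ Real.sqrt 10 ^ L by positivity), hs10]
    exact Real.sqrt_le_sqrt hDle
  have hone : (1 : ℝ) ≤ Real.sqrt 10 ^ L := one_le_pow₀ hsq.le
  have hsmall : 4 * (2 * (Real.sqrt D + 1)) + 108 ≤ 10 ^ L / (L : ℝ) ^ 2 := by
    have h1 : 4 * (2 * (Real.sqrt D + 1)) + 108 ≤ 132 * Real.sqrt 10 ^ L := by nlinarith
    refine h1.trans ?_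
    rw [le_div_iff₀ (by positivity), ← hs10]
    rw [div_lt_iff₀ (by positivity)] at hL6
    nlinarith
  have hden0 : 0 < Real.log D / 2 - Real.log 2 := by
    rw [hlogD]
    have : Real.log 2 < (3 / 5 : ℝ) * Real.log 10 / 2 * (L : ℝ) := by linarith
    linarith
  have htot := total a L hL5 (10 ^ L / (2 / 5 * (Real.log D / 2 - Real.log 2)) + 10 ^ L / (L : ℝ) ^ 2
    + 2 * (Real.sqrt D + 1)) (by positivity) (fun l hl => by
      have h1 := fam a l L hl hL5 D hL2
      have h2 := hL4 (cls a l L)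
      linarith)
  refine le_trans htot ?_
  have hden : 0 < (3 / 5 : ℝ) * Real.log 10 / 2 - Real.log 2 / (L : ℝ) := by
    have : Real.log 2 / (L : ℝ) < (3 / 5 : ℝ) * Real.log 10 / 2 := by
      rw [div_lt_iff₀ hLp]; linarith
    linarith
  have h1 : Real.log D / 2 - Real.log 2 =
      L * ((3 / 5 : ℝ) * Real.log 10 / 2 - Real.log 2 / (L : ℝ)) := by
    rw [hlogD]; field_simp
  rw [h1]
  have h2 : 4 * (10 ^ L / (2 / 5 * (L * ((3 / 5 : ℝ) * Real.log 10 / 2 - Real.log 2 / (L : ℝ)))) +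
      10 ^ L / (L : ℝ) ^ 2) + 10 ^ L / (L : ℝ) ^ 2 = 10 ^ L / L *
      (4 / (2 / 5 * ((3 / 5 : ℝ) * Real.log 10 / 2 - Real.log 2 / (L : ℝ))) + 5 / (L : ℝ)) := by
    have hden' := hden.ne'
    generalize (3 / 5 : ℝ) * Real.log 10 / 2 - Real.log 2 / (L : ℝ) = x at hden'
    field_simp
    ring
  calc 4 * (10 ^ L / (2 / 5 * (L * ((3 / 5 : ℝ) * Real.log 10 / 2 - Real.log 2 / (L : ℝ)))) +
      10 ^ L / (L : ℝ) ^ 2 + 2 * (Real.sqrt D + 1)) + 108 ≤
      4 * (10 ^ L / (2 / 5 * (L * ((3 / 5 : ℝ) * Real.log 10 / 2 - Real.log 2 / (L : ℝ)))) +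
      10 ^ L / (L : ℝ) ^ 2) + 10 ^ L / (L : ℝ) ^ 2 := by linarith
    _ = 10 ^ L / L *
      (4 / (2 / 5 * ((3 / 5 : ℝ) * Real.log 10 / 2 - Real.log 2 / (L : ℝ))) + 5 / (L : ℝ)) := h2
    _ ≤ 10 ^ L / L * ((20 / 3 + ε) * 5 / Real.log 10) :=
        mul_le_mul_of_nonneg_left hL1.le (by positivity)
    _ = (20 / 3 + ε) * (5 * 10 ^ L / (L * Real.log 10)) := by
        field_simp

end Pool.Agent.H281L
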