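import Pool.Agent.Y928.PU.Fam
import Pool.Agent.H181R5.PB_T9
import Pool.Agent.Y928.PU.Tot

/-! # Palindromes in every base and primes with arbitrary shifts: one family -/

set_option autoImplicit false

namespace Pool.Agent.H281L.B

open Finset Filter Topology Pool.Agent.Helper112
open Pool.Agent.W89.Sv (PZ GZ sift prime_dvd_PZ)
open Pool.Agent.W89.PW (Fw BigW PtW fr pv)
open Pool.Agent.W261.PWBV (U U_nonneg U_sum norm_sum_pv double)
open Pool.Agent.H623R3.PBT8 (orth group coprime_pos)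
open Pool.Agent.Y928.PU
open Pool.Agent.H181R5.PBT9 (palin pvl palin_eq)

/-- counting in a residue class by exponential sums -/
theorem cnt_bound' {b : ℕ} (hb : 0 < b) (L q l m h : ℕ) (hq : q.Coprime (2 * b)) :
    |(((univ : Finset (Fin L → Fin b × Fin 1)).filter
        (fun x => pg b L l m x ≡ h [MOD q])).card : ℝ) -
      ((b : ℝ) * ((1 : ℕ) : ℝ)) ^ L / q| ≤
      ((b : ℝ) * ((1 : ℕ) : ℝ)) ^ L / q * ∑ d ∈ q.divisors.filter (fun d => 1 < d), U b b 1 L d := by
  have hq0 := coprime_pos hq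
  have hqr : (0 : ℝ) < q := by exact_mod_cast hq0
  have hqc : (q : ℂ) ≠ 0 := by exact_mod_cast hq0.ne'
  set C : ℝ := (((univ : Finset (Fin L → Fin b × Fin 1)).filter
    (fun x => pg b L l m x ≡ h [MOD q])).card : ℝ) with hC
  set T : ℕ → ℂ := fun a => ∑ x : Fin L → Fin b × Fin 1,
    ee ((a : ℝ) * (((pg b L l m x : ℝ) - (h : ℝ)) / q)) with hT
  have h1 : (C : ℂ) = (1 / (q : ℂ)) * ∑ a ∈ range q, T a := by
    have h2 : (C : ℂ) = ∑ x : Fin L → Fin b × Fin 1,
        (1 / (q : ℂ)) * ∑ a ∈ range q, ee ((a : ℝ) * (((pg b L l m x : ℝ) - (h : ℝ)) / q)) := by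
      rw [hC, Finset.card_filter]
      push_cast
      refine sum_congr rfl fun x _ => ?_
      have := orth hq0 (pg b L l m x) h
      rw [this]
      by_cases hm : pg b L l m x ≡ h [MOD q]
      · rw [if_pos hm, if_pos hm]
        field_simp
        norm_num
      · rw [if_neg hm, if_neg hm]
        simp
    rw [h2, ← mul_sum, sum_comm]
  have hT0 : T 0 = ((b : ℂ) * ((1 : ℕ) : ℂ)) ^ L := by
    simp only [hT]
    simp [ls_ee_zero]
  have hTn : ∀ a, ‖T a‖ = ((b : ℝ) * ((1 : ℕ) : ℝ)) ^ L * Fw b b 1 L L ((a : ℝ) / q) := by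
    intro a
    have h3 : T a = ee (-((a : ℝ) / q * h)) *
        ∑ x : Fin L → Fin b × Fin 1, ee ((a : ℝ) / q * (pg b L l m x : ℝ)) := by
      simp only [hT]
      rw [mul_sum]
      refine sum_congr rfl fun x _ => ?_
      rw [← ls_ee_add]
      congr 1
      ring
    rw [h3, norm_mul, ls_norm_ee, one_mul, norm_sum_pg hb]
  have h3 : (C : ℂ) - ((b : ℂ) * ((1 : ℕ) : ℂ)) ^ L / q =
      (1 / (q : ℂ)) * ∑ a ∈ (range q).erase 0, T a := by
    rw [h1, ← Finset.add_sum_erase _ _ (mem_range.2 hq0), hT0]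
    ring
  have h4 : |C - ((b : ℝ) * ((1 : ℕ) : ℝ)) ^ L / q| ≤ (1 / (q : ℝ)) * ∑ a ∈ (range q).erase 0,
      ((b : ℝ) * ((1 : ℕ) : ℝ)) ^ L * Fw b b 1 L L ((a : ℝ) / q) := by
    have h5 : |C - ((b : ℝ) * ((1 : ℕ) : ℝ)) ^ L / q| =
        ‖(C : ℂ) - ((b : ℂ) * ((1 : ℕ) : ℂ)) ^ L / q‖ := by
      rw [← Real.norm_eq_abs, ← Complex.norm_real]
      push_cast
      rfl
    rw [h5, h3, norm_mul]
    have h6 : ‖(1 / (q : ℂ))‖ = 1 / (q : ℝ) := by simp
    rw [h6]
    refine mul_le_mul_of_nonneg_left ?_ (by positivity)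
    refine (norm_sum_le _ _).trans (le_of_eq ?_)
    exact sum_congr rfl fun a _ => hTn a
  refine h4.trans (le_of_eq ?_)
  rw [← mul_sum]
  have h7 : ∑ a ∈ (range q).erase 0, Fw b b 1 L L ((a : ℝ) / q) =
      ∑ d ∈ q.divisors.filter (fun d => 1 < d), U b b 1 L d := by
    have h8 := group hq0 (Fw b b 1 L L)
    rw [← Finset.add_sum_erase _ _ (mem_range.2 hq0)] at h8
    have h9 : q.divisors.filter (fun d => 1 < d) = q.divisors.erase 1 := by
      ext d
      rw [mem_filter, mem_erase, Nat.mem_divisors]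
      constructor
      · rintro ⟨h1, h2⟩
        exact ⟨by omega, h1⟩
      · rintro ⟨h1, h2⟩
        refine ⟨h2, ?_⟩
        have := Nat.pos_of_dvd_of_pos h2.1 hq0
        omega
    have h10 : (1 : ℕ) ∈ q.divisors := Nat.one_mem_divisors.2 hq0.ne'
    rw [← Finset.add_sum_erase _ _ h10] at h8
    have h11 : ∑ a ∈ (range 1).filter (fun a => a.Coprime 1), Fw b b 1 L L ((a : ℝ) / (1 : ℕ)) =
        Fw b b 1 L L (((0 : ℕ) : ℝ) / q) := by
      simp
    rw [h11] at h8
    rw [h9]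
    unfold U
    linarith
  rw [h7]
  ring

/-- the level of distribution, uniformly in the outer and middle digits and in the classes -/
theorem lev' {b : ℕ} (hb : 2 ≤ b) (hP : PtW b b 1) {κ : ℝ} (hκ0 : 0 < κ)
    (hκ1 : κ < 1) (hB : BigW b b 1 κ) (A : ℕ) : ∀ᶠ L : ℕ in atTop, ∀ (l m : ℕ) (h : ℕ → ℕ),
    ∑ q ∈ (Icc 1 ⌊(b : ℝ) ^ (κ * L)⌋₊).filter (fun q => q.Coprime (2 * b)),
      (q.divisors.card : ℝ) ^ 2 *
        |(((univ : Finset (Fin L → Fin b × Fin 1)).filter
            (fun x => pg b L l m x ≡ h q [MOD q])).card : ℝ) -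
          (b : ℝ) ^ L / q| ≤ (b : ℝ) ^ L / (L : ℝ) ^ A := by
  have hb0 : 0 < b := by omega
  have hbr : (0 : ℝ) < b := by exact_mod_cast hb0
  have hb1 : (1 : ℝ) ≤ b := by exact_mod_cast hb0
  filter_upwards [U_sum b b 1 (by omega) hP κ hκ0 hκ1 hB (A + 5),
    eventually_ge_atTop ((b + 1) ^ 4)] with L hL hLb l m h
  set D := ⌊(b : ℝ) ^ (κ * L)⌋₊ with hD
  have hLb' : ((b : ℝ) + 1) ^ 4 ≤ L := by exact_mod_cast hLb
  have hL1 : (1 : ℝ) ≤ L := by
    have : (1 : ℝ) ≤ ((b : ℝ) + 1) ^ 4 := one_le_pow₀ (by linarith)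
    linarith
  have hL0 : (0 : ℝ) < L := by linarith
  have e1 : (b : ℝ) ^ L = ((b : ℝ) * ((1 : ℕ) : ℝ)) ^ L := by rw [Nat.cast_one, mul_one]
  rw [e1]
  have h1 : ∑ q ∈ (Icc 1 D).filter (fun q => q.Coprime (2 * b)),
      (q.divisors.card : ℝ) ^ 2 *
        |(((univ : Finset (Fin L → Fin b × Fin 1)).filter
            (fun x => pg b L l m x ≡ h q [MOD q])).card : ℝ) -
          ((b : ℝ) * ((1 : ℕ) : ℝ)) ^ L / q| ≤
      ∑ q ∈ (Icc 1 D).filter (fun q => q.Coprime (2 * b)),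
      (q.divisors.card : ℝ) ^ 2 *
        (((b : ℝ) * ((1 : ℕ) : ℝ)) ^ L / q * ∑ d ∈ q.divisors.filter (fun d => 1 < d), U b b 1 L d) := by
    refine sum_le_sum fun q hq => ?_
    rw [mem_filter] at hq
    exact mul_le_mul_of_nonneg_left (cnt_bound' hb0 L q l m (h q) hq.2) (by positivity)
  have h2 := h1.trans (double b b 1 L D)
  have h3 := Pool.Agent.H316R2.tau_sq_sum_le D
  have hlog : 1 + Real.log D ≤ (b + 1) * L := by
    rcases Nat.eq_zero_or_pos D with h0 | h0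
    · rw [h0]
      simp only [Nat.cast_zero, Real.log_zero, add_zero]
      nlinarith
    · have hDle : (D : ℝ) ≤ (b : ℝ) ^ (κ * L) := Nat.floor_le (by positivity)
      have hDle2 : (D : ℝ) ≤ (b : ℝ) ^ ((1 : ℝ) * L) := by
        refine hDle.trans (Real.rpow_le_rpow_of_exponent_le hb1 ?_)
        exact mul_le_mul_of_nonneg_right hκ1.le hL0.le
      have h4 : Real.log D ≤ (1 * L) * Real.log b := by
        rw [← Real.log_rpow hbr]
        exact Real.log_le_log (by exact_mod_cast h0) hDle2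
      have h5 : Real.log b ≤ b - 1 := Real.log_le_sub_one_of_pos hbr
      have h6 : (1 * L) * Real.log b ≤ (1 * L) * ((b : ℝ) - 1) :=
        mul_le_mul_of_nonneg_left h5 (by positivity)
      nlinarith [mul_pos hbr hL0]
  have hlog0 : 0 ≤ 1 + Real.log D := by
    have := Real.log_natCast_nonneg D
    linarith
  have h4 : ∑ e ∈ Icc 1 D, (e.divisors.card : ℝ) ^ 2 / e ≤ ((b : ℝ) + 1) ^ 4 * (L : ℝ) ^ 4 := by
    refine h3.trans ?_
    calc (1 + Real.log D) ^ 4 ≤ (((b : ℝ) + 1) * (L : ℝ)) ^ 4 := by gcongr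
      _ = ((b : ℝ) + 1) ^ 4 * (L : ℝ) ^ 4 := by ring
  refine h2.trans ?_
  have hS0 : 0 ≤ ∑ e ∈ Icc 1 D, (e.divisors.card : ℝ) ^ 2 / e :=
    sum_nonneg fun _ _ => by positivity
  calc ((b : ℝ) * ((1 : ℕ) : ℝ)) ^ L * ((∑ d ∈ (Icc 2 D).filter (fun q => q.Coprime (2 * b)),
      (d.divisors.card : ℝ) ^ 2 * U b b 1 L d / d) *
        ∑ e ∈ Icc 1 D, (e.divisors.card : ℝ) ^ 2 / e)
      ≤ ((b : ℝ) * ((1 : ℕ) : ℝ)) ^ L * ((1 / (L : ℝ) ^ (A + 5)) * (((b : ℝ) + 1) ^ 4 * (L : ℝ) ^ 4)) :=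
        mul_le_mul_of_nonneg_left (mul_le_mul hL h4 hS0 (by positivity)) (by positivity)
    _ ≤ ((b : ℝ) * ((1 : ℕ) : ℝ)) ^ L / (L : ℝ) ^ A := by
        generalize ((b : ℝ) + 1) ^ 4 = B at hLb'
        have h5 : (1 / (L : ℝ) ^ (A + 5)) * (B * (L : ℝ) ^ 4) = B / L * (1 / (L : ℝ) ^ A) := by
          have hy : ((L : ℝ) ^ A) ≠ 0 := by positivity
          have hx : (L : ℝ) ≠ 0 := hL0.ne'
          rw [pow_add]
          generalize (L : ℝ) ^ A = y at hy
          generalize (L : ℝ) = x at hx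
          field_simp
        rw [h5]
        have h6 : B / (L : ℝ) ≤ 1 := by rw [div_le_one hL0]; exact hLb'
        have h7 : (0 : ℝ) < 1 / (L : ℝ) ^ A := by positivity
        calc ((b : ℝ) * ((1 : ℕ) : ℝ)) ^ L * (B / L * (1 / (L : ℝ) ^ A))
            ≤ ((b : ℝ) * ((1 : ℕ) : ℝ)) ^ L * (1 * (1 / (L : ℝ) ^ A)) := by gcongr
          _ = _ := by ring

/-- the value `|n + a|` -/
def uv (b : ℕ) (a : ℤ) (L l m : ℕ) (x : Fin L → Fin b × Fin 1) : ℕ :=
  ((pg b L l m x : ℤ) + a).natAbs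

/-- the residue class of `- a` -/
def cl (a : ℤ) (q : ℕ) : ℕ := ((-a) % (q : ℤ)).toNat

lemma dvd_uv_iff {b : ℕ} (a : ℤ) (L l m q : ℕ) (hq : 1 ≤ q) (x : Fin L → Fin b × Fin 1) :
    q ∣ uv b a L l m x ↔ pg b L l m x ≡ cl a q [MOD q] := by
  have hq0 : (q : ℤ) ≠ 0 := by exact_mod_cast (by omega : q ≠ 0)
  have h1 : ((cl a q : ℕ) : ℤ) = (-a) % (q : ℤ) := by
    unfold cl
    exact Int.toNat_of_nonneg (Int.emod_nonneg _ hq0)
  have h2 := Int.emod_add_mul_ediv (-a) (q : ℤ)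
  have h3 : ((cl a q : ℕ) : ℤ) - (pg b L l m x : ℤ) =
      -((pg b L l m x : ℤ) + a) - (q : ℤ) * ((-a) / (q : ℤ)) := by
    rw [h1]
    linarith
  have h4 : (pg b L l m x ≡ cl a q [MOD q]) ↔ (q : ℤ) ∣ ((cl a q : ℕ) : ℤ) - (pg b L l m x : ℤ) := by
    rw [← Int.natCast_modEq_iff, Int.modEq_iff_dvd]
  have h5 : q ∣ uv b a L l m x ↔ (q : ℤ) ∣ -((pg b L l m x : ℤ) + a) := by
    unfold uv
    rw [← Int.natCast_dvd_natCast, Int.dvd_natAbs, dvd_neg]
  rw [h4, h5, h3]
  constructor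
  · intro h
    exact dvd_sub h (dvd_mul_right _ _)
  · intro h
    have h6 := dvd_add h (dvd_mul_right (q : ℤ) ((-a) / (q : ℤ)))
    rwa [sub_add_cancel] at h6

lemma pg_inj {b : ℕ} (hb : 2 ≤ b) (L l m : ℕ) :
    Function.Injective (fun x : Fin L → Fin b × Fin 1 => pg b L l m x) := by
  intro x x' h
  have key : ∀ y : Fin L → Fin b × Fin 1,
      pvl b 1 (L + 1) (Fin.cons (⟨0, by omega⟩ : Fin b) (fun c => (y c).1)) = pg b L 1 0 y := by
    intro y
    rw [pvl_pg]
    simp only [Fin.cons_zero, Fin.cons_succ]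
    congr 1
    funext c
    exact Prod.ext rfl (Subsingleton.elim _ _)
  have h1 : pg b L 1 0 x = pg b L 1 0 x' := by
    have h' : pg b L l m x = pg b L l m x' := h
    unfold pg at h'
    have hS := Nat.add_left_cancel h'
    unfold pg
    rw [hS]
  rw [← key, ← key] at h1
  have h2 := Pool.Agent.H181R5.PBT9.pvl_inj hb (L + 1) (by omega)
    (show ((1, Fin.cons (⟨0, by omega⟩ : Fin b) (fun c => (x c).1)) :
      ℕ × (Fin (L + 1) → Fin b)) ∈ {x : ℕ × (Fin (L + 1) → Fin b) | x.1 < b} from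
        (by omega : 1 < b))
    (show ((1, Fin.cons (⟨0, by omega⟩ : Fin b) (fun c => (x' c).1)) :
      ℕ × (Fin (L + 1) → Fin b)) ∈ {x : ℕ × (Fin (L + 1) → Fin b) | x.1 < b} from
        (by omega : 1 < b)) h1
  have h3 := (Prod.ext_iff.1 h2).2
  funext c
  have h4 := congrFun h3 c.succ
  simp only [Fin.cons_succ] at h4
  exact Prod.ext h4 (Subsingleton.elim _ _)

/-- few values are small -/
lemma small {b : ℕ} (hb : 2 ≤ b) (a : ℤ) (L l m z : ℕ) :
    ((univ : Finset (Fin L → Fin b × Fin 1)).filter (fun x => uv b a L l m x < z)).card ≤ 2 * z := by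
  have h1 : ((univ : Finset (Fin L → Fin b × Fin 1)).filter (fun x => uv b a L l m x < z)).card ≤
      (Finset.Ioo (-(z : ℤ)) (z : ℤ)).card := by
    refine card_le_card_of_injOn (fun x => (pg b L l m x : ℤ) + a) ?_ ?_
    · intro x hx
      rw [mem_coe, mem_filter] at hx
      rw [mem_coe, mem_Ioo]
      have h := hx.2
      unfold uv at h
      show -(z : ℤ) < (pg b L l m x : ℤ) + a ∧ (pg b L l m x : ℤ) + a < z
      omega
    · intro x _ x' _ h
      have h2 : (pg b L l m x : ℤ) = pg b L l m x' := by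
        have : (pg b L l m x : ℤ) + a = (pg b L l m x' : ℤ) + a := h
        linarith
      exact pg_inj hb L l m (by exact_mod_cast h2)
  refine h1.trans ?_
  rw [Int.card_Ioo]
  omega

/-- primes in one family -/
lemma family' {b : ℕ} (hb : 2 ≤ b) (a : ℤ) (L l m : ℕ) (D : ℝ) (hD : 4 < D) :
    ((((univ : Finset (Fin L → Fin b × Fin 1)).filter (fun x => (uv b a L l m x).Prime)).card : ℕ) : ℝ) ≤
      (b : ℝ) ^ L / (((2 * b).totient : ℝ) / ((2 * b : ℕ) : ℝ) * (Real.log D / 2 - Real.log 2)) +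
        (∑ q ∈ (Icc 1 ⌊D⌋₊).filter (fun q => q.Coprime (2 * b)),
          (q.divisors.card : ℝ) ^ 2 *
            |(((univ : Finset (Fin L → Fin b × Fin 1)).filter
                (fun x => pg b L l m x ≡ cl a q [MOD q])).card : ℝ) -
              (b : ℝ) ^ L / q|) + 2 * (Real.sqrt D + 1) := by
  have hb0 : (0 : ℝ) < b := by exact_mod_cast (by omega : 0 < b)
  have hs2 : 2 ≤ Real.sqrt D := by
    rw [show (2 : ℝ) = Real.sqrt 4 by rw [show (4 : ℝ) = 2 ^ 2 by norm_num]; simp]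
    exact Real.sqrt_le_sqrt hD.le
  set z := ⌈Real.sqrt D⌉₊ with hz
  have hzr : Real.sqrt D ≤ (z : ℝ) := Nat.le_ceil _
  have hzr2 : (z : ℝ) < Real.sqrt D + 1 := Nat.ceil_lt_add_one (by linarith)
  have h1 : ((((univ : Finset (Fin L → Fin b × Fin 1)).filter (fun x => (uv b a L l m x).Prime)).card : ℕ) : ℝ) ≤
      sift (2 * b) univ (uv b a L l m) 1 z + 2 * z := by
    unfold sift
    have hsub : ((univ : Finset (Fin L → Fin b × Fin 1)).filter (fun x => (uv b a L l m x).Prime)) ⊆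
        (univ : Finset (Fin L → Fin b × Fin 1)).filter
          (fun x => 1 ∣ uv b a L l m x ∧ (uv b a L l m x).Coprime (PZ (2 * b) z)) ∪
        (univ : Finset (Fin L → Fin b × Fin 1)).filter (fun x => uv b a L l m x < z) := by
      intro x hx
      rw [mem_filter] at hx
      rw [mem_union, mem_filter, mem_filter]
      by_cases hlt : uv b a L l m x < z
      · exact Or.inr ⟨hx.1, hlt⟩
      · left
        refine ⟨hx.1, one_dvd _, ?_⟩
        rw [Nat.Prime.coprime_iff_not_dvd hx.2]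
        intro hdvd
        have h2 := (prime_dvd_PZ hx.2 hdvd).1
        omega
    have h2 := (card_le_card hsub).trans (card_union_le _ _)
    have h3 := small hb a L l m z
    have h4 : (((univ : Finset (Fin L → Fin b × Fin 1)).filter (fun x => (uv b a L l m x).Prime)).card) ≤
        ((univ : Finset (Fin L → Fin b × Fin 1)).filter
          (fun x => 1 ∣ uv b a L l m x ∧ (uv b a L l m x).Coprime (PZ (2 * b) z))).card + 2 * z := by
      omega
    exact_mod_cast h4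
  have h2 := Pool.Agent.W89.Sv.selberg (2 * b) (univ : Finset (Fin L → Fin b × Fin 1)) (uv b a L l m)
    ((b : ℝ) ^ L) (by positivity) z 1 (Nat.coprime_one_left _) one_pos (Real.sqrt D) (by linarith)
  have h3 := G_log (2 * b) (by omega) z (Real.sqrt D) (Real.sqrt D / 2) (by linarith)
    (by linarith) (by linarith)
  have h4 : Real.log (Real.sqrt D / 2) = Real.log D / 2 - Real.log 2 := by
    rw [Real.log_div (by linarith) (by norm_num), Real.log_sqrt (by linarith)]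
  rw [h4] at h3
  have hlog2 : 0 < Real.log 2 := Real.log_pos (by norm_num)
  have hlog4 : Real.log 4 = 2 * Real.log 2 := by
    rw [show (4 : ℝ) = 2 ^ 2 by norm_num, Real.log_pow]
    norm_num
  have hpos : 0 < Real.log D / 2 - Real.log 2 := by
    have h5 : Real.log 4 < Real.log D := Real.log_lt_log (by norm_num) hD
    rw [hlog4] at h5
    linarith
  have htp : (0 : ℝ) < ((2 * b).totient : ℝ) := by
    exact_mod_cast Nat.totient_pos.2 (by omega)
  have h2bp : (0 : ℝ) < ((2 * b : ℕ) : ℝ) := by exact_mod_cast (by omega : 0 < 2 * b)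
  have h5 : (b : ℝ) ^ L / ((1 : ℕ) : ℝ) / GZ (2 * b) (Real.sqrt D) z ≤
      (b : ℝ) ^ L / (((2 * b).totient : ℝ) / ((2 * b : ℕ) : ℝ) * (Real.log D / 2 - Real.log 2)) := by
    rw [Nat.cast_one, div_one]
    exact div_le_div_of_nonneg_left (by positivity) (by positivity) h3
  have h6 : ∑ l' ∈ (PZ (2 * b) z).divisors.filter (fun l' : ℕ => (l' : ℝ) ≤ Real.sqrt D ^ 2),
      (l'.divisors.card : ℝ) ^ 2 *
        |Pool.Agent.W89.Sv.rem (univ : Finset (Fin L → Fin b × Fin 1)) (uv b a L l m) ((b : ℝ) ^ L) (1 * l')| ≤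
      ∑ q ∈ (Icc 1 ⌊D⌋₊).filter (fun q => q.Coprime (2 * b)),
        (q.divisors.card : ℝ) ^ 2 *
          |(((univ : Finset (Fin L → Fin b × Fin 1)).filter
              (fun x => pg b L l m x ≡ cl a q [MOD q])).card : ℝ) -
              (b : ℝ) ^ L / q| := by
    have h7 : ∀ l' ∈ (PZ (2 * b) z).divisors.filter (fun l' : ℕ => (l' : ℝ) ≤ Real.sqrt D ^ 2),
        l' ∈ (Icc 1 ⌊D⌋₊).filter (fun q => q.Coprime (2 * b)) := by
      intro l' hl'
      rw [mem_filter, Nat.mem_divisors] at hl'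
      have hl0 : l' ≠ 0 := fun h => hl'.1.2 (by rw [h] at hl'; exact zero_dvd_iff.mp hl'.1.1)
      rw [mem_filter, mem_Icc]
      refine ⟨⟨Nat.one_le_iff_ne_zero.mpr hl0, ?_⟩, ?_⟩
      · apply Nat.le_floor
        have := hl'.2
        rwa [Real.sq_sqrt (by linarith)] at this
      · exact Nat.Coprime.coprime_dvd_left hl'.1.1 (PZ_coprime (2 * b) z)
    calc _ = ∑ l' ∈ (PZ (2 * b) z).divisors.filter (fun l' : ℕ => (l' : ℝ) ≤ Real.sqrt D ^ 2),
        (l'.divisors.card : ℝ) ^ 2 *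
          |(((univ : Finset (Fin L → Fin b × Fin 1)).filter
              (fun x => pg b L l m x ≡ cl a l' [MOD l'])).card : ℝ) -
              (b : ℝ) ^ L / l'| := by
          apply sum_congr rfl
          intro l' hl'
          have := h7 l' hl'
          rw [mem_filter, mem_Icc] at this
          rw [one_mul]
          unfold Pool.Agent.W89.Sv.rem
          congr 5
          ext x
          simp only [mem_filter, mem_univ, true_and]
          exact dvd_uv_iff a L l m l' this.1.1 x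
      _ ≤ _ := by
          apply sum_le_sum_of_subset_of_nonneg h7
          intro q _ _
          positivity
  linarith

end Pool.Agent.H281L.B
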