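import Pool.Agent.H281L.ShiftB1

/-! # Palindromes in every base and primes with arbitrary shifts: the total -/

set_option autoImplicit false

namespace Pool.Agent.H281L.B

open Finset Filter Topology
open Pool.Agent.W89.PW (BigW PtW fr)
open Pool.Agent.Y928.PU
open Pool.Agent.H181R5.PBT9 (palin pvl palin_eq)

/-- the asymptotic form, uniformly in the shift and in the outer and middle digits -/
theorem famA' {b : ℕ} (hb : 2 ≤ b) (hP : PtW b b 1) {κ : ℝ} (hκ0 : 0 < κ) (hκ1 : κ < 1)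
    (hB : BigW b b 1 κ) (ε : ℝ) (hε : 0 < ε) : ∀ᶠ L : ℕ in atTop, ∀ (a : ℤ) (l m : ℕ),
    ((((univ : Finset (Fin L → Fin b × Fin 1)).filter (fun x => (uv b a L l m x).Prime)).card : ℕ) : ℝ) ≤
      (4 / κ + ε) * (((2 * b : ℕ) : ℝ) / ((2 * b).totient : ℝ)) *
        ((b : ℝ) ^ L / (2 * ((L : ℝ) + 1) * Real.log b)) := by
  have hbR : (2 : ℝ) ≤ b := by exact_mod_cast hb
  have hb0 : (0 : ℝ) < b := by linarith
  have hlb : 0 < Real.log b := Real.log_pos (by linarith)
  have htp : (0 : ℝ) < ((2 * b).totient : ℝ) := by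
    exact_mod_cast Nat.totient_pos.2 (by omega)
  have h2bp : (0 : ℝ) < ((2 * b : ℕ) : ℝ) := by exact_mod_cast (by omega : 0 < 2 * b)
  obtain ⟨F, hF, hF0⟩ : ∃ F : ℝ, F = ((2 * b).totient : ℝ) / ((2 * b : ℕ) : ℝ) ∧ 0 < F :=
    ⟨_, rfl, by positivity⟩
  have hFi : ((2 * b : ℕ) : ℝ) / ((2 * b).totient : ℝ) = 1 / F := by rw [hF, one_div_div]
  -- the limit
  have hinv : Tendsto (fun L : ℕ => Real.log 2 / (L : ℝ)) atTop (𝓝 0) :=
    tendsto_const_nhds.div_atTop tendsto_natCast_atTop_atTop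
  have hinv1 : Tendsto (fun L : ℕ => 1 / (L : ℝ)) atTop (𝓝 0) :=
    tendsto_const_nhds.div_atTop tendsto_natCast_atTop_atTop
  have hinv2 : Tendsto (fun L : ℕ => 2 / (L : ℝ)) atTop (𝓝 0) :=
    tendsto_const_nhds.div_atTop tendsto_natCast_atTop_atTop
  have hlim : Tendsto (fun L : ℕ => (1 + 1 / (L : ℝ)) *
      (1 / (F * (κ * Real.log b / 2 - Real.log 2 / (L : ℝ))) + 2 / (L : ℝ))) atTop
      (𝓝 ((1 + 0) * (1 / (F * (κ * Real.log b / 2 - 0)) + 0))) := by
    apply Tendsto.mul (hinv1.const_add _)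
    apply Tendsto.add _ hinv2
    apply Tendsto.div tendsto_const_nhds
    · exact (hinv.const_sub _).const_mul _
    · rw [sub_zero]
      positivity
  have hlt : (1 + 0) * (1 / (F * (κ * Real.log b / 2 - 0)) + 0) <
      (4 / κ + ε) * (1 / F) / (2 * Real.log b) := by
    rw [add_zero, add_zero, sub_zero, one_mul]
    have e1 : (4 / κ + ε) * (1 / F) / (2 * Real.log b) =
        1 / (F * (κ * Real.log b / 2)) + ε * (1 / F) / (2 * Real.log b) := by
      field_simp
      ring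
    rw [e1]
    have : 0 < ε * (1 / F) / (2 * Real.log b) := by positivity
    linarith
  have hev := hlim.eventually_lt_const hlt
  -- largeness
  have hDt : Tendsto (fun L : ℕ => (b : ℝ) ^ (κ * L)) atTop atTop := by
    have h1 : Tendsto (fun L : ℕ => κ * (L : ℝ)) atTop atTop :=
      tendsto_natCast_atTop_atTop.const_mul_atTop hκ0
    have h2 : Tendsto (fun x : ℝ => (b : ℝ) ^ x) atTop atTop :=
      tendsto_rpow_atTop_of_base_gt_one b (by linarith)
    exact h2.comp h1
  have hpos : ∀ᶠ L : ℕ in atTop, 1 < κ * Real.log b / 2 * (L : ℝ) := by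
    have h1 : Tendsto (fun L : ℕ => κ * Real.log b / 2 * (L : ℝ)) atTop atTop := by
      apply tendsto_natCast_atTop_atTop.const_mul_atTop
      positivity
    exact h1.eventually_gt_atTop 1
  have hsb : 1 < Real.sqrt b := by
    rw [Real.lt_sqrt (by norm_num)]
    linarith
  have hpoly : ∀ᶠ L : ℕ in atTop, (L : ℝ) ^ 2 / (Real.sqrt b) ^ L < 1 / 4 :=
    (tendsto_pow_const_div_const_pow_of_one_lt 2 hsb).eventually_lt_const (by norm_num)
  filter_upwards [hev, hDt.eventually_gt_atTop 4, hpos, lev' hb hP hκ0 hκ1 hB 2,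
    eventually_ge_atTop 1, hpoly] with L hL1 hL2 hL3 hL4 hL5 hL6 a l m
  have hLp : (0 : ℝ) < L := by exact_mod_cast hL5
  set D : ℝ := (b : ℝ) ^ (κ * L) with hD
  have hlogD : Real.log D = κ * L * Real.log b := by
    rw [hD, Real.log_rpow hb0]
  have hDle : D ≤ (b : ℝ) ^ L := by
    rw [hD, ← Real.rpow_natCast]
    apply Real.rpow_le_rpow_of_exponent_le (by linarith)
    nlinarith
  have hs2 : 2 ≤ Real.sqrt D := by
    rw [show (2 : ℝ) = Real.sqrt 4 by rw [show (4 : ℝ) = 2 ^ 2 by norm_num]; simp]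
    exact Real.sqrt_le_sqrt hL2.le
  have hsp : 0 < (Real.sqrt b) ^ L := by positivity
  have hsq : (Real.sqrt b) ^ L * (Real.sqrt b) ^ L = (b : ℝ) ^ L := by
    rw [← mul_pow, Real.mul_self_sqrt hb0.le]
  have hsD : Real.sqrt D ≤ (Real.sqrt b) ^ L := by
    rw [Real.sqrt_le_left hsp.le, sq, hsq]
    exact hDle
  have herr : 2 * (Real.sqrt D + 1) ≤ (b : ℝ) ^ L / (L : ℝ) ^ 2 := by
    rw [le_div_iff₀ (by positivity)]
    have h1 : (L : ℝ) ^ 2 < 1 / 4 * (Real.sqrt b) ^ L := by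
      rwa [div_lt_iff₀ hsp] at hL6
    have h2 : 2 * (Real.sqrt D + 1) ≤ 4 * (Real.sqrt b) ^ L := by linarith
    calc 2 * (Real.sqrt D + 1) * (L : ℝ) ^ 2 ≤ (4 * (Real.sqrt b) ^ L) * (1 / 4 * (Real.sqrt b) ^ L) :=
          mul_le_mul h2 h1.le (by positivity) (by positivity)
      _ = (b : ℝ) ^ L := by rw [← hsq]; ring
  have h1 := family' hb a L l m D hL2
  have h2 := hL4 l m (cl a)
  have h3 : ((((univ : Finset (Fin L → Fin b × Fin 1)).filter (fun x => (uv b a L l m x).Prime)).card : ℕ) : ℝ) ≤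
      (b : ℝ) ^ L / (F * (Real.log D / 2 - Real.log 2)) + 2 * ((b : ℝ) ^ L / (L : ℝ) ^ 2) := by
    rw [hF]
    linarith
  refine h3.trans ?_
  rw [hFi]
  have hl2 : Real.log 2 < 1 := by
    have := Real.log_two_lt_d9
    linarith
  have h4 : Real.log D / 2 - Real.log 2 = L * (κ * Real.log b / 2 - Real.log 2 / (L : ℝ)) := by
    rw [hlogD]; field_simp
  have hden : 0 < κ * Real.log b / 2 - Real.log 2 / (L : ℝ) := by
    have : Real.log 2 / (L : ℝ) < κ * Real.log b / 2 := by
      rw [div_lt_iff₀ hLp]; linarith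
    linarith
  rw [h4]
  have h5 : (b : ℝ) ^ L / (F * (L * (κ * Real.log b / 2 - Real.log 2 / (L : ℝ)))) +
      2 * ((b : ℝ) ^ L / (L : ℝ) ^ 2) = (b : ℝ) ^ L / ((L : ℝ) + 1) *
        ((1 + 1 / (L : ℝ)) *
          (1 / (F * (κ * Real.log b / 2 - Real.log 2 / (L : ℝ))) + 2 / (L : ℝ))) := by
    have hden' := hden.ne'
    generalize κ * Real.log b / 2 - Real.log 2 / (L : ℝ) = y at hden'
    have hL1' : (L : ℝ) + 1 ≠ 0 := by positivity
    field_simp
  rw [h5]
  calc (b : ℝ) ^ L / ((L : ℝ) + 1) * ((1 + 1 / (L : ℝ)) *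
          (1 / (F * (κ * Real.log b / 2 - Real.log 2 / (L : ℝ))) + 2 / (L : ℝ))) ≤
      (b : ℝ) ^ L / ((L : ℝ) + 1) * ((4 / κ + ε) * (1 / F) / (2 * Real.log b)) :=
        mul_le_mul_of_nonneg_left hL1.le (by positivity)
    _ = (4 / κ + ε) * (1 / F) * ((b : ℝ) ^ L / (2 * ((L : ℝ) + 1) * Real.log b)) := by
        have hL1' : (L : ℝ) + 1 ≠ 0 := by positivity
        field_simp

/-- the residue of the shift -/
def tt (b : ℕ) (a : ℤ) : ℕ := (a % (b : ℤ)).toNat

/-- the outer digits for which `|n + a|` can be coprime to `b` -/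
def outerA (b : ℕ) (a : ℤ) : Finset ℕ := (range b).filter (fun l => b.Coprime (l + tt b a))

/-- the middle digits for which `|n + a|` can be odd -/
def middleA (b : ℕ) (a : ℤ) : Finset ℕ :=
  (range b).filter (fun m => b % 2 = 1 → ((m : ℤ) + a) % 2 ≠ 0)

lemma outerA_card (b : ℕ) (a : ℤ) : (outerA b a).card ≤ b.totient := by
  rw [← Nat.filter_coprime_Ico_eq_totient b (tt b a)]
  refine card_le_card_of_injOn (fun l => l + tt b a) ?_ ?_
  · intro l hl
    rw [mem_coe, outerA, mem_filter, mem_range] at hl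
    rw [mem_coe, mem_filter, mem_Ico]
    show (tt b a ≤ l + tt b a ∧ l + tt b a < tt b a + b) ∧ b.Coprime (l + tt b a)
    exact ⟨⟨by omega, by omega⟩, hl.2⟩
  · intro l _ l' _ h
    have h' : l + tt b a = l' + tt b a := h
    omega

lemma middleA_card {b : ℕ} (a : ℤ) (h : b % 2 = 1) : 2 * (middleA b a).card ≤ b + 1 := by
  obtain ⟨k, rfl⟩ : ∃ k, b = 2 * k + 1 := ⟨b / 2, by omega⟩
  have h1 := odd_card k
  have h2 := card_filter_add_card_filter_not (s := range (2 * k + 1)) (fun m => m % 2 = 1)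
  rw [card_range] at h2
  rcases Int.emod_two_eq_zero_or_one a with h0 | h0
  · have h3 : middleA (2 * k + 1) a ⊆ (range (2 * k + 1)).filter (fun m => m % 2 = 1) := by
      intro m hm
      rw [middleA, mem_filter] at hm
      rw [mem_filter]
      have := hm.2 h
      exact ⟨hm.1, by omega⟩
    have h4 := card_le_card h3
    omega
  · have h3 : middleA (2 * k + 1) a ⊆ (range (2 * k + 1)).filter (fun m => ¬ m % 2 = 1) := by
      intro m hm
      rw [middleA, mem_filter] at hm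
      rw [mem_filter]
      have := hm.2 h
      exact ⟨hm.1, by omega⟩
    have h4 := card_le_card h3
    omega

lemma cardsA {b : ℕ} (hb : 2 ≤ b) (a : ℤ) :
    ((outerA b a).card : ℝ) * ((middleA b a).card : ℝ) * (((2 * b : ℕ) : ℝ) / ((2 * b).totient : ℝ)) ≤
      ((b : ℝ) + ((b % 2 : ℕ) : ℝ)) * b := by
  have htp : (0 : ℝ) < (b.totient : ℝ) := by exact_mod_cast Nat.totient_pos.2 (by omega)
  have h0 : ((outerA b a).card : ℝ) ≤ b.totient := by exact_mod_cast outerA_card b a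
  rcases Nat.mod_two_eq_zero_or_one b with h | h
  · have hm : ((middleA b a).card : ℝ) ≤ b := by
      have : (middleA b a).card ≤ b := by
        have := card_filter_le (range b) (fun m : ℕ => b % 2 = 1 → ((m : ℤ) + a) % 2 ≠ 0)
        rwa [card_range] at this
      exact_mod_cast this
    rw [h]
    have h1 : (2 * b).totient = 2 * b.totient :=
      Nat.totient_mul_of_prime_of_dvd Nat.prime_two (Nat.dvd_of_mod_eq_zero h)
    rw [h1]
    calc ((outerA b a).card : ℝ) * ((middleA b a).card : ℝ) *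
          (((2 * b : ℕ) : ℝ) / ((2 * b.totient : ℕ) : ℝ)) ≤
        (b.totient : ℝ) * (b : ℝ) * (((2 * b : ℕ) : ℝ) / ((2 * b.totient : ℕ) : ℝ)) := by
          gcongr
      _ = _ := by
          push_cast
          field_simp
          ring
  · have hm : ((middleA b a).card : ℝ) ≤ ((b : ℝ) + 1) / 2 := by
      have h2 : (2 : ℝ) * ((middleA b a).card : ℝ) ≤ (b : ℝ) + 1 := by
        exact_mod_cast middleA_card a h
      linarith
    have h1 : (2 * b).totient = b.totient := by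
      rw [Nat.totient_mul_of_prime_of_not_dvd Nat.prime_two (by omega)]
      simp
    rw [h1, h]
    calc ((outerA b a).card : ℝ) * ((middleA b a).card : ℝ) *
          (((2 * b : ℕ) : ℝ) / (b.totient : ℝ)) ≤
        (b.totient : ℝ) * (((b : ℝ) + 1) / 2) * (((2 * b : ℕ) : ℝ) / (b.totient : ℝ)) := by
          gcongr
      _ = _ := by
          push_cast
          field_simp

lemma pg_outer {b : ℕ} (L l m : ℕ) (x : Fin L → Fin b × Fin 1) :
    ∃ r, pg b L l m x = b * r + l := by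
  have h1 : b ∣ ∑ c : Fin L, (((x c).1 : ℕ) + ((x c).2 : ℕ)) * fr b L c :=
    dvd_sum fun c _ => dvd_mul_of_dvd_right (dvd_fr c.2) _
  obtain ⟨r, hr⟩ := h1
  refine ⟨l * b ^ (2 * L + 1) + m * b ^ L + r, ?_⟩
  unfold pg
  rw [hr]
  ring

lemma pg_middle {b : ℕ} (hodd : b % 2 = 1) (L l m : ℕ) (x : Fin L → Fin b × Fin 1) :
    ∃ r, pg b L l m x = 2 * r + m := by
  have h1 : 2 ∣ ∑ c : Fin L, (((x c).1 : ℕ) + ((x c).2 : ℕ)) * fr b L c := by
    refine dvd_sum fun c _ => dvd_mul_of_dvd_right ?_ _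
    unfold fr
    exact two_dvd_odd hodd _ _
  have h2 : 2 ∣ l * (b ^ (2 * L + 2) + 1) := by
    refine dvd_mul_of_dvd_right ?_ _
    have := two_dvd_odd hodd (2 * L + 2) 0
    rwa [pow_zero] at this
  have h3 : b ^ (L + 1) % 2 = 1 := by rw [Nat.pow_mod, hodd]; simp
  obtain ⟨r1, hr1⟩ := h1
  obtain ⟨r2, hr2⟩ := h2
  obtain ⟨r3, hr3⟩ : ∃ r3, b ^ (L + 1) = 2 * r3 + 1 := ⟨b ^ (L + 1) / 2, by omega⟩
  refine ⟨r1 + r2 + m * r3, ?_⟩
  unfold pg
  rw [hr1, hr2, hr3]
  ring

/-- outside of `outerA` and `middleA` there are few primes -/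
lemma fam_bad {b : ℕ} (hb : 2 ≤ b) (a : ℤ) (L l m : ℕ) (hl : l < b) (hm : m < b)
    (h : l ∉ outerA b a ∨ m ∉ middleA b a) :
    ((univ : Finset (Fin L → Fin b × Fin 1)).filter (fun x => (uv b a L l m x).Prime)).card ≤
      2 * (b + 1) := by
  refine le_trans (card_le_card ?_) (small hb a L l m (b + 1))
  intro x hx
  rw [mem_filter] at hx ⊢
  refine ⟨hx.1, ?_⟩
  have hp := hx.2
  have hu : uv b a L l m x = ((pg b L l m x : ℤ) + a).natAbs := rfl
  rcases h with h | h
  · rw [outerA, mem_filter, mem_range] at h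
    have h1 : ¬ b.Coprime (l + tt b a) := fun h' => h ⟨hl, h'⟩
    rw [Nat.coprime_iff_gcd_eq_one] at h1
    obtain ⟨p, hpp, hd⟩ := Nat.exists_prime_and_dvd h1
    have h2 : p ∣ b := hd.trans (Nat.gcd_dvd_left _ _)
    have h3 : p ∣ l + tt b a := hd.trans (Nat.gcd_dvd_right _ _)
    have h4 : ((tt b a : ℕ) : ℤ) = a % (b : ℤ) := by
      unfold tt
      exact Int.toNat_of_nonneg (Int.emod_nonneg _ (by exact_mod_cast (by omega : b ≠ 0)))
    obtain ⟨r, hr⟩ := pg_outer L l m x
    have h5 : (pg b L l m x : ℤ) + a = (b : ℤ) * (r + a / (b : ℤ)) + ((l + tt b a : ℕ) : ℤ) := by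
      have h6 := Int.emod_add_mul_ediv a (b : ℤ)
      rw [hr]
      push_cast
      rw [h4]
      linarith
    have h7 : (p : ℤ) ∣ (pg b L l m x : ℤ) + a := by
      rw [h5]
      exact dvd_add (dvd_mul_of_dvd_left (by exact_mod_cast h2) _) (by exact_mod_cast h3)
    have h8 : p ∣ uv b a L l m x := by
      rw [hu, ← Int.natCast_dvd_natCast, Int.dvd_natAbs]
      exact h7
    have h9 := (Nat.prime_dvd_prime_iff_eq hpp hp).1 h8
    have h10 : p ≤ b := Nat.le_of_dvd (by omega) h2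
    omega
  · rw [middleA, mem_filter, mem_range] at h
    have h1 : ¬ (b % 2 = 1 → ((m : ℤ) + a) % 2 ≠ 0) := fun h' => h ⟨hm, h'⟩
    push Not at h1
    obtain ⟨hodd, h2⟩ := h1
    obtain ⟨r, hr⟩ := pg_middle hodd L l m x
    have h8 : 2 ∣ uv b a L l m x := by
      rw [hu, hr]
      omega
    have h9 := (Nat.prime_dvd_prime_iff_eq Nat.prime_two hp).1 h8
    omega

lemma coverA {b : ℕ} (hb : 2 ≤ b) (a : ℤ) (L : ℕ) :
    (palin b (L + 1)).filter (fun n : ℕ => ((n : ℤ) + a).natAbs.Prime) ⊆ (range b ×ˢ range b).biUnion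
      (fun y => ((univ : Finset (Fin L → Fin b × Fin 1)).filter
        (fun x => (uv b a L y.1 y.2 x).Prime)).image (fun x => pg b L y.1 y.2 x)) := by
  intro n hn
  rw [mem_filter, palin_eq hb (L + 1) (by omega), mem_image] at hn
  obtain ⟨⟨⟨l, m⟩, hx, rfl⟩, hp⟩ := hn
  rw [mem_product, mem_Icc] at hx
  simp only at hx hp ⊢
  rw [pvl_pg] at hp ⊢
  have hl1 := hx.1.1
  have hl2 := hx.1.2
  rw [mem_biUnion]
  refine ⟨(l, (m 0 : ℕ)), ?_, ?_⟩
  · rw [mem_product, mem_range, mem_range]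
    exact ⟨by omega, (m 0).2⟩
  · rw [mem_image]
    exact ⟨_, by rw [mem_filter]; exact ⟨mem_univ _, hp⟩, rfl⟩

/-- the bound in total, uniformly in the shift -/
def BdS (b : ℕ) (C : ℝ) : Prop :=
  ∀ᶠ N : ℕ in atTop, ∀ a : ℤ,
    (((range (b ^ (2 * N + 1))).filter (fun n : ℕ => b ^ (2 * N) ≤ n ∧
      (Nat.digits b n).reverse = Nat.digits b n ∧ ((n : ℤ) + a).natAbs.Prime)).card : ℝ) ≤
      C * (((b : ℝ) + ((b % 2 : ℕ) : ℝ)) * (b : ℝ) ^ N / (2 * (N : ℝ) * Real.log b))

theorem totalA {b : ℕ} (hb : 2 ≤ b) (hP : PtW b b 1) {κ : ℝ} (hκ0 : 0 < κ) (hκ1 : κ < 1)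
    (hB : BigW b b 1 κ) (ε : ℝ) (hε : 0 < ε) : BdS b (4 / κ + ε) := by
  have hbR : (2 : ℝ) ≤ b := by exact_mod_cast hb
  have hb0 : (0 : ℝ) < b := by linarith
  have hlb : 0 < Real.log b := Real.log_pos (by linarith)
  have htp : (0 : ℝ) < ((2 * b).totient : ℝ) := by
    exact_mod_cast Nat.totient_pos.2 (by omega)
  set E : ℝ := (b : ℝ) * b * (2 * (b + 1)) with hE
  have hE0 : 0 < E := by positivity
  have hsmall : ∀ᶠ L : ℕ in atTop, ((L : ℝ)) ^ 1 / (b : ℝ) ^ L < ε / 2 / (2 * Real.log b * (2 * E)) :=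
    (tendsto_pow_const_div_const_pow_of_one_lt 1 (by linarith : (1 : ℝ) < b)).eventually_lt_const
      (by positivity)
  have h3 : ∀ᶠ L : ℕ in atTop, ∀ a : ℤ,
    (((range (b ^ (2 * (L + 1) + 1))).filter (fun n : ℕ => b ^ (2 * (L + 1)) ≤ n ∧
      (Nat.digits b n).reverse = Nat.digits b n ∧ ((n : ℤ) + a).natAbs.Prime)).card : ℝ) ≤
      (4 / κ + ε) * (((b : ℝ) + ((b % 2 : ℕ) : ℝ)) * (b : ℝ) ^ (L + 1) /
        (2 * ((L + 1 : ℕ) : ℝ) * Real.log b)) := by
    filter_upwards [famA' hb hP hκ0 hκ1 hB (ε / 2) (by positivity), hsmall,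
      eventually_ge_atTop 1] with L hL hLs hL1 a
    have hL1' : (1 : ℝ) ≤ L := by exact_mod_cast hL1
    have e0 : (range (b ^ (2 * (L + 1) + 1))).filter (fun n : ℕ => b ^ (2 * (L + 1)) ≤ n ∧
      (Nat.digits b n).reverse = Nat.digits b n ∧ ((n : ℤ) + a).natAbs.Prime) =
        (palin b (L + 1)).filter (fun n : ℕ => ((n : ℤ) + a).natAbs.Prime) := by
      unfold palin
      rw [filter_filter]
      apply filter_congr
      intro n _
      tauto
    rw [e0]
    set B : ℝ := (4 / κ + ε / 2) * (((2 * b : ℕ) : ℝ) / ((2 * b).totient : ℝ)) *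
        ((b : ℝ) ^ L / (2 * ((L : ℝ) + 1) * Real.log b)) with hBdef
    have hB0 : 0 ≤ B := by positivity
    have h1 : ((palin b (L + 1)).filter (fun n : ℕ => ((n : ℤ) + a).natAbs.Prime)).card ≤
        ∑ y ∈ range b ×ˢ range b,
        ((univ : Finset (Fin L → Fin b × Fin 1)).filter (fun x => (uv b a L y.1 y.2 x).Prime)).card := by
      refine le_trans (card_le_card (coverA hb a L)) (le_trans card_biUnion_le ?_)
      exact sum_le_sum (fun y _ => card_image_le)
    have h2 : ∀ y ∈ range b ×ˢ range b,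
        ((((univ : Finset (Fin L → Fin b × Fin 1)).filter
            (fun x => (uv b a L y.1 y.2 x).Prime)).card : ℕ) : ℝ) ≤
        (if y ∈ outerA b a ×ˢ middleA b a then B else 0) + 2 * ((b : ℝ) + 1) := by
      intro y hy
      rw [mem_product, mem_range, mem_range] at hy
      by_cases hc : y ∈ outerA b a ×ˢ middleA b a
      · rw [if_pos hc]
        have := hL a y.1 y.2
        have : (0 : ℝ) ≤ 2 * ((b : ℝ) + 1) := by positivity
        linarith
      · rw [if_neg hc, zero_add]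
        rw [mem_product, not_and_or] at hc
        have := fam_bad hb a L y.1 y.2 hy.1 hy.2 hc
        exact_mod_cast this
    have hsum : ((((palin b (L + 1)).filter (fun n : ℕ => ((n : ℤ) + a).natAbs.Prime)).card : ℕ) : ℝ) ≤
        ((outerA b a).card : ℝ) * ((middleA b a).card : ℝ) * B + E := by
      calc ((((palin b (L + 1)).filter (fun n : ℕ => ((n : ℤ) + a).natAbs.Prime)).card : ℕ) : ℝ) ≤
          ((∑ y ∈ range b ×ˢ range b, ((univ : Finset (Fin L → Fin b × Fin 1)).filter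
            (fun x => (uv b a L y.1 y.2 x).Prime)).card : ℕ) : ℝ) := by exact_mod_cast h1
        _ = ∑ y ∈ range b ×ˢ range b, ((((univ : Finset (Fin L → Fin b × Fin 1)).filter
            (fun x => (uv b a L y.1 y.2 x).Prime)).card : ℕ) : ℝ) := by push_cast; rfl
        _ ≤ ∑ y ∈ range b ×ˢ range b,
            ((if y ∈ outerA b a ×ˢ middleA b a then B else 0) + 2 * ((b : ℝ) + 1)) := sum_le_sum h2
        _ = ∑ y ∈ range b ×ˢ range b, (if y ∈ outerA b a ×ˢ middleA b a then B else 0) + E := by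
            rw [sum_add_distrib, sum_const, nsmul_eq_mul, card_product, card_range, hE]
            push_cast
            ring
        _ = ((outerA b a).card : ℝ) * ((middleA b a).card : ℝ) * B + E := by
            congr 1
            rw [← sum_filter]
            have hf : (range b ×ˢ range b).filter (fun y => y ∈ outerA b a ×ˢ middleA b a) =
                outerA b a ×ˢ middleA b a := by
              ext y
              rw [mem_filter]
              constructor
              · exact fun h => h.2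
              · intro h
                refine ⟨?_, h⟩
                rw [mem_product] at h ⊢
                exact ⟨(mem_filter.1 h.1).1, (mem_filter.1 h.2).1⟩
            rw [hf, sum_const, nsmul_eq_mul, card_product]
            push_cast
            ring
    set G : ℝ := ((b : ℝ) + ((b % 2 : ℕ) : ℝ)) * (b : ℝ) ^ (L + 1) /
        (2 * ((L + 1 : ℕ) : ℝ) * Real.log b) with hG
    have hmain : ((outerA b a).card : ℝ) * ((middleA b a).card : ℝ) * B ≤ (4 / κ + ε / 2) * G := by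
      have h4 := cardsA hb a
      calc ((outerA b a).card : ℝ) * ((middleA b a).card : ℝ) * B =
          (((outerA b a).card : ℝ) * ((middleA b a).card : ℝ) *
            (((2 * b : ℕ) : ℝ) / ((2 * b).totient : ℝ))) *
            ((4 / κ + ε / 2) * ((b : ℝ) ^ L / (2 * ((L : ℝ) + 1) * Real.log b))) := by
            rw [hBdef]
            ring
        _ ≤ (((b : ℝ) + ((b % 2 : ℕ) : ℝ)) * b) *
            ((4 / κ + ε / 2) * ((b : ℝ) ^ L / (2 * ((L : ℝ) + 1) * Real.log b))) :=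
            mul_le_mul_of_nonneg_right h4 (by positivity)
        _ = (4 / κ + ε / 2) * G := by
            rw [hG, pow_succ]
            push_cast
            ring
    have herr : E ≤ ε / 2 * G := by
      have hbp : (0 : ℝ) < (b : ℝ) ^ L := by positivity
      have h5 : (L : ℝ) < ε / 2 / (2 * Real.log b * (2 * E)) * (b : ℝ) ^ L := by
        rw [pow_one, div_lt_iff₀ hbp] at hLs
        exact hLs
      have h6 : (L : ℝ) * (2 * Real.log b * (2 * E)) < ε / 2 * (b : ℝ) ^ L := by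
        have h7 := mul_lt_mul_of_pos_right h5 (by positivity : (0 : ℝ) < 2 * Real.log b * (2 * E))
        have h8 : ε / 2 / (2 * Real.log b * (2 * E)) * (b : ℝ) ^ L * (2 * Real.log b * (2 * E)) =
            ε / 2 * (b : ℝ) ^ L := by
          field_simp
        linarith
      have h9 : ((L + 1 : ℕ) : ℝ) ≤ 2 * L := by
        push_cast
        linarith
      have hLL : (0 : ℝ) < 2 * ((L + 1 : ℕ) : ℝ) * Real.log b := by positivity
      have h10 : E * (2 * ((L + 1 : ℕ) : ℝ) * Real.log b) ≤ ε / 2 * (b : ℝ) ^ L := by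
        calc E * (2 * ((L + 1 : ℕ) : ℝ) * Real.log b) ≤ E * (2 * (2 * L) * Real.log b) := by
              gcongr
          _ = (L : ℝ) * (2 * Real.log b * (2 * E)) := by ring
          _ ≤ _ := h6.le
      have h11 : (b : ℝ) ^ L ≤ ((b : ℝ) + ((b % 2 : ℕ) : ℝ)) * (b : ℝ) ^ (L + 1) := by
        rw [pow_succ]
        have h12 : (0 : ℝ) ≤ ((b % 2 : ℕ) : ℝ) := Nat.cast_nonneg _
        have h13 : (1 : ℝ) ≤ ((b : ℝ) + ((b % 2 : ℕ) : ℝ)) * b := by nlinarith
        calc (b : ℝ) ^ L = (b : ℝ) ^ L * 1 := (mul_one _).symm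
          _ ≤ (b : ℝ) ^ L * (((b : ℝ) + ((b % 2 : ℕ) : ℝ)) * b) :=
              mul_le_mul_of_nonneg_left h13 hbp.le
          _ = _ := by ring
      rw [hG, mul_div_assoc', le_div_iff₀ hLL]
      refine h10.trans ?_
      exact mul_le_mul_of_nonneg_left h11 (by positivity)
    calc ((((palin b (L + 1)).filter (fun n : ℕ => ((n : ℤ) + a).natAbs.Prime)).card : ℕ) : ℝ) ≤
        ((outerA b a).card : ℝ) * ((middleA b a).card : ℝ) * B + E := hsum
      _ ≤ (4 / κ + ε / 2) * G + ε / 2 * G := add_le_add hmain herr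
      _ = (4 / κ + ε) * G := by ring
  unfold BdS
  rw [eventually_atTop] at h3 ⊢
  obtain ⟨L0, hL0⟩ := h3
  refine ⟨L0 + 1, fun N hN => ?_⟩
  obtain ⟨L, rfl⟩ : ∃ L, N = L + 1 := ⟨N - 1, by omega⟩
  exact hL0 L (by omega)

end Pool.Agent.H281L.B
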