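import Pool.Agent.H281L.ShiftB2
import Pool.Agent.Y928.PU.Main

/-! # Palindromes in every base and primes with arbitrary shifts: the constants -/

set_option autoImplicit false

namespace Pool.Agent.H281L.B

open Finset Filter Topology
open Pool.Agent.W89.PW (BigW PtW m4)
open Pool.Agent.W139.PX
open Pool.Agent.Y928.PU (kappa_lt_one)

/-- from the majorant -/
theorem of_majA {b : ℕ} (hb : 2 ≤ b) {H CM κ : ℝ} (hMaj : MajP b b 1 H CM) (hH0 : 0 < H)
    (hHb : 1 ≤ b * H) (hCM : 0 < CM) (hκ0 : 0 < κ) (hκH : (b : ℝ) ^ κ * H < 1)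
    (ε : ℝ) (hε : 0 < ε) : BdS b (4 / κ + ε) :=
  totalA hb (Pool.Agent.W571.PW.Pt.main b b 1 hb hb le_rfl rfl) hκ0 (kappa_lt_one hb hH0 hHb hκH)
    (bigW_of_majP hb (by omega) le_rfl rfl (m4_unif hb) hMaj hH0 hHb hCM hκ0 hκH) ε hε

/-- every base: the constant `8` -/
theorem eightA {b : ℕ} (hb : 2 ≤ b) (ε : ℝ) (hε : 0 < ε) : BdS b (8 + ε) := by
  have hbR : (2 : ℝ) ≤ b := by exact_mod_cast hb
  have hb0 : (0 : ℝ) < b := by linarith
  set H : ℝ := Real.sqrt (1 / b) with hH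
  have hH0 : 0 < H := Real.sqrt_pos.2 (by positivity)
  have hH2 : H ^ 2 = 1 / b := Real.sq_sqrt (by positivity)
  have hb1 : 1 / (b : ℝ) ≤ 1 := by
    rw [div_le_one hb0]
    linarith
  have hH1 : H ≤ 1 := by
    by_contra hcon
    push Not at hcon
    have h1 : 1 < H ^ 2 := one_lt_pow₀ hcon two_ne_zero
    linarith
  have hHb : 1 ≤ b * H := by
    have h1 : (b : ℝ) * H ^ 2 = 1 := by
      rw [hH2]
      field_simp
    have h2 : H ^ 2 ≤ H := by nlinarith
    have h3 : (b : ℝ) * H ^ 2 ≤ b * H := mul_le_mul_of_nonneg_left h2 hb0.le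
    linarith
  have hMaj : MajP b b 1 H (1 / H ^ 3) := majP_alt hb (by omega) le_rfl le_rfl (by omega) hH0 hH1 (by
    rw [hH2, Nat.cast_one, mul_one])
  set κ : ℝ := 4 / (8 + ε / 2) with hκdef
  have hκ0 : 0 < κ := by positivity
  have hκ2 : κ < 1 / 2 := by
    rw [hκdef, div_lt_div_iff₀ (by positivity) (by norm_num)]
    linarith
  have hκ : (b : ℝ) ^ κ * H < 1 := by
    rw [hH, Real.sqrt_eq_rpow, one_div, Real.inv_rpow hb0.le]
    rw [← div_eq_mul_inv, div_lt_one (by positivity)]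
    exact Real.rpow_lt_rpow_of_exponent_lt (by linarith) hκ2
  have h := of_majA hb hMaj hH0 hHb (by positivity) hκ0 hκ (ε / 2) (by positivity)
  have e : 4 / κ + ε / 2 = 8 + ε := by
    rw [hκdef]
    field_simp
    ring
  rwa [e] at h

/-- bases from 64 on -/
theorem largeA {b : ℕ} (hb : 64 ≤ b) {κ : ℝ} (hκ0 : 0 < κ)
    (hκ : (b : ℝ) ^ κ * (2 + 2 / Real.pi * Real.log b) < b) (ε : ℝ) (hε : 0 < ε) :
    BdS b (4 / κ + ε) := by
  have hb0 : (0 : ℝ) < b := by exact_mod_cast (by omega : 0 < b)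
  obtain ⟨h1, h2, h3⟩ := HU_facts hb
  refine of_majA (by omega) (majP_unif hb) h1 h2 one_pos hκ0 ?_ ε hε
  unfold HU
  rw [← mul_div_assoc, div_lt_one hb0]
  exact hκ

/-- the constant tends to `4` -/
theorem fourA (ε : ℝ) (hε : 0 < ε) : ∃ b₀ : ℕ, ∀ b : ℕ, b₀ ≤ b → BdS b (4 + ε) := by
  set κ : ℝ := 4 / (4 + ε / 2) with hκdef
  have hκ0 : 0 < κ := by positivity
  have hκ1 : κ < 1 := by
    rw [hκdef, div_lt_one (by positivity)]
    linarith
  have hd : 0 < 1 - κ := by linarith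
  have h1 : Tendsto (fun x : ℝ => Real.log x / x ^ (1 - κ)) atTop (𝓝 0) :=
    (isLittleO_log_rpow_atTop hd).tendsto_div_nhds_zero
  have h2 : Tendsto (fun x : ℝ => 2 / x ^ (1 - κ)) atTop (𝓝 0) :=
    tendsto_const_nhds.div_atTop (tendsto_rpow_atTop hd)
  have h3 : Tendsto (fun x : ℝ => 2 / x ^ (1 - κ) + 2 / Real.pi * (Real.log x / x ^ (1 - κ))) atTop
      (𝓝 (0 + 2 / Real.pi * 0)) := h2.add (h1.const_mul _)
  rw [mul_zero, add_zero] at h3
  have h4 := (h3.comp (tendsto_natCast_atTop_atTop (R := ℝ))).eventually_lt_const one_pos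
  rw [eventually_atTop] at h4
  obtain ⟨b₁, hb₁⟩ := h4
  refine ⟨max b₁ 64, fun b hb => ?_⟩
  have hb64 : 64 ≤ b := le_trans (le_max_right _ _) hb
  have h5 := hb₁ b (le_trans (le_max_left _ _) hb)
  simp only [Function.comp_apply] at h5
  have hb0 : (0 : ℝ) < b := by exact_mod_cast (by omega : 0 < b)
  have hx : 0 < (b : ℝ) ^ (1 - κ) := by positivity
  have h6 : 2 + 2 / Real.pi * Real.log b < (b : ℝ) ^ (1 - κ) := by
    have h7 : 2 / (b : ℝ) ^ (1 - κ) + 2 / Real.pi * (Real.log b / (b : ℝ) ^ (1 - κ)) =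
        (2 + 2 / Real.pi * Real.log b) / (b : ℝ) ^ (1 - κ) := by ring
    rw [h7, div_lt_one hx] at h5
    exact h5
  have h8 : (b : ℝ) ^ κ * (2 + 2 / Real.pi * Real.log b) < b := by
    calc (b : ℝ) ^ κ * (2 + 2 / Real.pi * Real.log b) < (b : ℝ) ^ κ * (b : ℝ) ^ (1 - κ) :=
          mul_lt_mul_of_pos_left h6 (by positivity)
      _ = b := by
          rw [← Real.rpow_add hb0]
          simp
  have h := largeA hb64 hκ0 h8 (ε / 2) (by positivity)
  have e : 4 / κ + ε / 2 = 4 + ε := by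
    rw [hκdef]
    field_simp
    ring
  rwa [e] at h

end Pool.Agent.H281L.B
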